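import Pool.Agent.Run7.h538.TP.Stm

set_option autoImplicit false

/-!
Piece EXB of project TP (helper989): the existence of a matrix of the tadpole with `n + 2` double
eigenvalues, from LZ, LST, PF, CON, PAT, KER.
-/

open Finset Matrix

namespace Run7.h989.TP

open Run7.h538.TP

lemma sum_odd (F : ℕ → ℝ) (K : ℕ) :
    ∑ l ∈ range K, (if Even l then 0 else F ((l - 1) / 2)) = ∑ t ∈ range (K / 2), F t := by
  induction K with
  | zero => simp
  | succ K ih =>
    rw [sum_range_succ, ih]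
    rcases Nat.even_or_odd K with h | h
    · rw [if_pos h, add_zero]
      obtain ⟨c, hc⟩ := h
      have e : (K + 1) / 2 = K / 2 := by omega
      rw [e]
    · have hne : ¬ Even K := Nat.not_even_iff_odd.2 h
      rw [if_neg hne]
      obtain ⟨c, hc⟩ := h
      have e1 : (K + 1) / 2 = c + 1 := by omega
      have e2 : K / 2 = c := by omega
      have e3 : (K - 1) / 2 = c := by omega
      rw [e1, e2, e3, sum_range_succ]

lemma sum_split (F : ℕ → ℝ) (K n : ℕ) :
    (∑ l ∈ range K, (if Even l then 0 else F ((l - 1) / 2))) + ∑ k ∈ range n, F (K / 2 + k) =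
      ∑ t ∈ range (K / 2 + n), F t := by
  rw [sum_odd, sum_range_add]

theorem t_EXB : S_LZ → S_LST → S_PF → S_CON → S_PAT → S_KER → S_EXB := by
  intro hLZ hLST hPF hCON hPAT hKER m n hn hm
  obtain ⟨K, rfl⟩ : ∃ K, m = K + 1 := ⟨m - 1, by omega⟩
  have hK : 2 * n + 3 ≤ K := by omega
  obtain ⟨a0, ρ, hρ, hpf⟩ := hPF (K / 2 + n)
  obtain ⟨D, hDdef⟩ : ∃ D : Fin K → ℝ, D = fun i : Fin K => (i.val : ℝ) := ⟨_, rfl⟩
  have hD : Function.Injective D := by
    intro i j h
    rw [hDdef] at h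
    have h' : (i.val : ℝ) = (j.val : ℝ) := h
    exact Fin.ext (by exact_mod_cast h')
  obtain ⟨β, x, hβ, hx, hev, hod⟩ :=
    hCON K (fun j => if Even j.val then 1 else ρ ((j.val - 1) / 2)) (by
    intro j
    split_ifs with h
    · exact one_pos
    · apply hρ
      rw [Nat.not_even_iff_odd] at h
      obtain ⟨c, hc⟩ := h
      have := j.isLt
      omega)
  rw [← hDdef] at hev hod
  obtain ⟨f, hf⟩ := hLZ K D x hD hx
  obtain ⟨ν, hνdef⟩ : ∃ ν : Fin n → ℝ, ν = fun k : Fin n => 2 * ((K / 2 + k.val : ℕ) : ℝ) + 1 :=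
    ⟨_, rfl⟩
  obtain ⟨s, hsdef⟩ : ∃ s : Fin n → ℝ, s = fun k : Fin n => Real.sqrt (ρ (K / 2 + k.val)) :=
    ⟨_, rfl⟩
  have hρ' : ∀ k : Fin n, 0 < ρ (K / 2 + k.val) := fun k => hρ _ (by have := k.isLt; omega)
  have hs2 : ∀ k, s k ^ 2 = ρ (K / 2 + k.val) := by
    intro k
    rw [hsdef]
    exact Real.sq_sqrt (hρ' k).le
  have hs : ∀ k, s k ≠ 0 := by
    intro k
    rw [hsdef]
    exact (Real.sqrt_pos.2 (hρ' k)).ne'
  have hν : Function.Injective ν := by
    intro k l h
    rw [hνdef] at h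
    have h' : 2 * ((K / 2 + k.val : ℕ) : ℝ) + 1 = 2 * ((K / 2 + l.val : ℕ) : ℝ) + 1 := h
    have h'' : ((K / 2 + k.val : ℕ) : ℝ) = ((K / 2 + l.val : ℕ) : ℝ) := by linarith
    have h3 : K / 2 + k.val = K / 2 + l.val := by exact_mod_cast h''
    exact Fin.ext (by omega)
  obtain ⟨g, hg⟩ := hLZ n ν s hν hs
  obtain ⟨a, ha, hxa⟩ := hf.fst ⟨0, by omega⟩ rfl
  obtain ⟨b, hb, hsb⟩ := hg.fst ⟨0, by omega⟩ rfl
  obtain ⟨c, hc, hzc⟩ := hLST K D x f hD hx hf ⟨K - 1, by omega⟩ (by
    show K - 1 + 1 = K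
    omega)
  have hker : ∀ i : Fin (n + 2),
      Dbl (Bm a0 D (fun j => x j + β * zz D x j) f ν s g) (2 * (i.val : ℝ)) ∧
        ∀ w : Fin n → ℝ, (Bm a0 D (fun j => x j + β * zz D x j) f ν s g).toBlocks₂₂ *ᵥ w =
          (2 * (i.val : ℝ)) • w → w = 0 := by
    intro i
    have hi := i.isLt
    have hq : 2 * i.val < K := by omega
    have hDq : D ⟨2 * i.val, hq⟩ = 2 * (i.val : ℝ) := by
      rw [hDdef]
      push_cast
      ring
    have hrq : x ⟨2 * i.val, hq⟩ + β * zz D x ⟨2 * i.val, hq⟩ = 0 :=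
      hev ⟨2 * i.val, hq⟩ (even_two_mul _)
    have key := hKER K n a0 D (fun j => x j + β * zz D x j) f ν s g ⟨2 * i.val, hq⟩ hf.orth
      hg.orth hD (by
        intro l h
        rw [hDq, hνdef] at h
        have h' : 2 * ((K / 2 + l.val : ℕ) : ℝ) + 1 = 2 * (i.val : ℝ) := h
        have h2 : 2 * (K / 2 + l.val) + 1 = 2 * i.val := by exact_mod_cast h'
        omega) hrq (by
        rw [hDq]
        have e1 : ∑ l ∈ univ.erase (⟨2 * i.val, hq⟩ : Fin K),
            (x l + β * zz D x l) ^ 2 / (2 * (i.val : ℝ) - D l) =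
            ∑ l ∈ range K, (if Even l then 0 else
              (fun t : ℕ => ρ t / ((2 * (i.val : ℕ) : ℝ) - (2 * t + 1))) ((l - 1) / 2)) := by
          rw [sum_erase _ (by rw [hrq]; simp), ← Fin.sum_univ_eq_sum_range]
          refine sum_congr rfl fun l _ => ?_
          split_ifs with hl
          · rw [hev l hl]
            simp
          · rw [hod l hl, if_neg hl]
            rw [Nat.not_even_iff_odd] at hl
            obtain ⟨c', hc'⟩ := hl
            have e3 : (l.val - 1) / 2 = c' := by omega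
            have e4 : D l = 2 * (c' : ℝ) + 1 := by
              rw [hDdef]
              show ((l.val : ℕ) : ℝ) = _
              rw [hc']
              push_cast
              ring
            rw [e3, e4]
        have e2 : ∑ l : Fin n, s l ^ 2 / (2 * (i.val : ℝ) - ν l) =
            ∑ k ∈ range n, (fun t : ℕ => ρ t / ((2 * (i.val : ℕ) : ℝ) - (2 * t + 1)))
              (K / 2 + k) := by
          rw [← Fin.sum_univ_eq_sum_range (fun k => (fun t : ℕ => ρ t /
            ((2 * (i.val : ℕ) : ℝ) - (2 * t + 1))) (K / 2 + k))]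
          refine sum_congr rfl fun l _ => ?_
          rw [hs2, hνdef]
        have e5 := sum_split (fun t : ℕ => ρ t / ((2 * (i.val : ℕ) : ℝ) - (2 * t + 1))) K n
        have e6 := hpf i.val (by omega)
        rw [e1, e2, add_assoc, e5]
        exact e6)
    rw [hDq] at key
    exact key
  refine ⟨Bm a0 D (fun j => x j + β * zz D x j) f ν s g, fun i => 2 * (i.val : ℝ), ?_, ?_,
    fun i => (hker i).1, fun i => (hker i).2⟩
  · refine hPAT K n a0 β a c b D x (zz D x) _ f ν s g (by omega) hβ ha hc hb hf hg ?_ ?_ ?_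
      (fun j => rfl)
    · intro i hi j
      have : i = ⟨0, by omega⟩ := Fin.ext hi
      rw [this]
      exact hxa j
    · intro i hi j
      have : i = ⟨K - 1, by omega⟩ := Fin.ext (by show i.val = K - 1; omega)
      rw [this]
      exact hzc j
    · intro i hi j
      have : i = ⟨0, by omega⟩ := Fin.ext hi
      rw [this]
      exact hsb j
  · intro i j h
    have h' : 2 * (i.val : ℝ) = 2 * (j.val : ℝ) := h
    have h'' : (i.val : ℝ) = (j.val : ℝ) := by linarith
    exact Fin.ext (by exact_mod_cast h'')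

end Run7.h989.TP
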